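import Mathlib

/-!
# MP_b7f2db_gt, Q1: selective high divergence does not pass to the Stone-Čech compactification

We construct (in ZFC) a Tychonoff non-compact space `X` which is selectively highly divergent (SHD)
while `βX` is not SHD.

Coordinates: `T = {idx j : j ∈ ℕ} ∪ {fn g : g ∈ ℕ^ℕ} ∪ {pr n A : n ∈ ℕ, A ⊆ ℕ}`. For `n ∈ ℕ` let `S n`
be the set of all `x ∈ {0,1}^T` such that `x (idx j) = 1` iff `j = n`, the map `g ↦ g n` is injective
on the set `supp x = {g : x (fn g) = 1}`, and `x (pr j A) = 1` only if `j = n`. Let `S = ⋃ S n`,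
`K = closure S` and `X = S ∪ {x ∈ K : supp x uncountable}`.

* Points of `S n` have countable `supp`, so every choice `y_n ∈ S n` has a subsequence convergent in
  `K`: `K` is not SHD.
* `X` is SHD: given open sets choose points of `S` in them, using the free coordinates `pr n A`;
  limits of sequences from `S` that lie outside `S` have countable support, so are not in `X`.
* `X` is `C*`-embedded in `K`: if two open sets of `X` have a common limit point `r ∈ K \ X`, then one
  adds to `supp r` uncountably many pairwise eventually different fast growing functions and gets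
  a common limit point in `X`. Hence `βX = K`.
-/

namespace Pool.Agent.Results.MP_b7f2db_gt.BetaNotSHD

open Set Filter Topology Classical

/-- `Z` is selectively highly divergent: for every sequence `U n` of nonempty open sets there are
points `x n ∈ U n` such that no subsequence of `x` converges in `Z`. -/
def SHD (Z : Type*) [TopologicalSpace Z] : Prop :=
  ∀ U : ℕ → Set Z, (∀ n, IsOpen (U n)) → (∀ n, (U n).Nonempty) →
    ∃ x : ℕ → Z, (∀ n, x n ∈ U n) ∧
      ∀ φ : ℕ → ℕ, StrictMono φ → ¬ ∃ z, Tendsto (x ∘ φ) atTop (𝓝 z)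

/-- the coordinates -/
inductive T : Type
  | idx (j : ℕ) : T
  | fn (g : ℕ → ℕ) : T
  | pr (n : ℕ) (A : Set ℕ) : T

open T

/-- the Cantor cube -/
abbrev P := T → Bool

/-- the functions in the support -/
def supp (x : P) : Set (ℕ → ℕ) := {g | x (fn g) = true}

/-- the clopen pieces -/
def S (n : ℕ) : Set P :=
  {x | (∀ j, x (idx j) = true ↔ j = n) ∧ (∀ g ∈ supp x, ∀ h ∈ supp x, g n = h n → g = h) ∧
    ∀ j A, x (pr j A) = true → j = n}

/-- their union -/
def SS : Set P := ⋃ n, S n

/-- the space -/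
def XX : Set P := {x | x ∈ closure SS ∧ (x ∈ SS ∨ ¬ (supp x).Countable)}

theorem cyl_open (x : P) (C : Finset T) : IsOpen {y : P | ∀ t ∈ C, y t = x t} := by
  have : {y : P | ∀ t ∈ C, y t = x t} = (C : Set T).pi (fun t => {x t}) := by
    ext y; simp [Set.mem_pi]
  rw [this]
  exact isOpen_set_pi C.finite_toSet (fun _ _ => isOpen_discrete _)

theorem exists_cyl {U : Set P} (hU : IsOpen U) {x : P} (hx : x ∈ U) :
    ∃ C : Finset T, ∀ y : P, (∀ t ∈ C, y t = x t) → y ∈ U := by
  obtain ⟨C, u, h1, h2⟩ := isOpen_pi_iff.1 hU x hx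
  exact ⟨C, fun y hy => h2 (fun t ht => by rw [hy t ht]; exact (h1 t ht).2)⟩

theorem mem_closure_cyl {A : Set P} {x : P} :
    x ∈ closure A ↔ ∀ C : Finset T, ∃ y ∈ A, ∀ t ∈ C, y t = x t := by
  rw [mem_closure_iff]
  constructor
  · intro h C
    obtain ⟨y, hy1, hy2⟩ := h _ (cyl_open x C) (fun _ _ => rfl)
    exact ⟨y, hy2, hy1⟩
  · intro h U hU hx
    obtain ⟨C, hC⟩ := exists_cyl hU hx
    obtain ⟨y, hy, hy'⟩ := h C
    exact ⟨y, hC y hy', hy⟩

theorem isClosed_S (n : ℕ) : IsClosed (S n) := by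
  rw [← closure_subset_iff_isClosed]
  intro x hx
  rw [mem_closure_cyl] at hx
  refine ⟨fun j => ?_, fun g hg h hh e => ?_, fun j A hj => ?_⟩
  · obtain ⟨y, hy, h⟩ := hx {idx j}
    rw [← h _ (by simp)]
    exact hy.1 j
  · obtain ⟨y, hy, h'⟩ := hx {fn g, fn h}
    refine hy.2.1 g ?_ h ?_ e
    · show y (fn g) = true
      rw [h' _ (by simp)]; exact hg
    · show y (fn h) = true
      rw [h' _ (by simp)]; exact hh
  · obtain ⟨y, hy, h'⟩ := hx {pr j A}
    exact hy.2.2 j A (by rw [h' _ (by simp)]; exact hj)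

theorem S_sub (n : ℕ) : S n ⊆ SS := subset_iUnion S n

theorem SS_sub : SS ⊆ XX := fun _ hx => ⟨subset_closure hx, Or.inl hx⟩

theorem mem_S_of_idx {x : P} (hx : x ∈ closure SS) {j : ℕ} (hj : x (idx j) = true) : x ∈ S j := by
  have : x ∈ closure (S j) := by
    rw [mem_closure_cyl] at hx ⊢
    intro C
    obtain ⟨y, hy, h⟩ := hx (insert (idx j) C)
    obtain ⟨n, hn⟩ := mem_iUnion.1 hy
    have : j = n := (hn.1 j).1 (by rw [h _ (by simp)]; exact hj)
    subst this
    exact ⟨y, hn, fun t ht => h t (by simp [ht])⟩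
  rwa [(isClosed_S j).closure_eq] at this

theorem idx_false {x : P} (hx : x ∈ closure SS) (hn : x ∉ SS) (j : ℕ) : x (idx j) = false := by
  by_contra h
  rw [Bool.not_eq_false] at h
  exact hn (S_sub j (mem_S_of_idx hx h))

theorem pr_false {x : P} (hx : x ∈ closure SS) (hn : x ∉ SS) (j : ℕ) (A : Set ℕ) :
    x (pr j A) = false := by
  by_contra h
  rw [Bool.not_eq_false] at h
  obtain ⟨y, hy, h'⟩ := mem_closure_cyl.1 hx {pr j A, idx j}
  obtain ⟨n, hn'⟩ := mem_iUnion.1 hy
  have h1 : j = n := hn'.2.2 j A (by rw [h' _ (by simp)]; exact h)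
  have h2 : x (idx j) = true := by
    rw [← h' _ (by simp)]
    exact (hn'.1 j).2 h1
  exact hn (S_sub j (mem_S_of_idx hx h2))

theorem supp_countable {n : ℕ} {x : P} (hx : x ∈ S n) : (supp x).Countable := by
  have h1 : MapsTo (fun g : ℕ → ℕ => g n) (supp x) univ := fun _ _ => mem_univ _
  have h2 : InjOn (fun g : ℕ → ℕ => g n) (supp x) := fun g hg h hh e => hx.2.1 g hg h hh e
  exact h1.countable_of_injOn h2 (to_countable _)

/-- `U` is a relatively open subset of `X` -/
def OpX (U : Set P) : Prop :=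
  ∀ x ∈ U, x ∈ XX ∧ ∃ C : Finset T, ∀ y ∈ XX, (∀ t ∈ C, y t = x t) → y ∈ U

theorem lemA {U : Set P} (hU : OpX U) {r : P} (hr : r ∈ closure U) (D : Finset T) :
    ∃ (n : ℕ) (x : P) (C : Finset T), x ∈ S n ∧ D ⊆ C ∧ (∀ t ∈ D, x t = r t) ∧
      (∀ g ∈ supp x, fn g ∈ C) ∧ ∀ y ∈ SS, (∀ t ∈ C, y t = x t) → y ∈ U := by
  obtain ⟨u, hu, hur⟩ := mem_closure_cyl.1 hr D
  obtain ⟨huX, C1, hC1⟩ := hU u hu
  obtain ⟨y0, hy0, hy0u⟩ := mem_closure_cyl.1 huX.1 (C1 ∪ D)
  have hy0U : y0 ∈ U := hC1 y0 (SS_sub hy0) fun t ht => hy0u t (by simp [ht])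
  obtain ⟨_, C2, hC2⟩ := hU y0 hy0U
  obtain ⟨n, hn⟩ := mem_iUnion.1 hy0
  set C := C2 ∪ D with hC
  set x : P := fun t => if (∃ g, t = fn g) ∧ t ∉ C then false else y0 t with hx
  have hxi : ∀ j, x (idx j) = y0 (idx j) := fun j => by simp [hx]
  have hxp : ∀ j A, x (pr j A) = y0 (pr j A) := fun j A => by simp [hx]
  have hxC : ∀ t ∈ C, x t = y0 t := fun t ht => by simp only [hx]; rw [if_neg (fun h => h.2 ht)]
  have hxs : ∀ g ∈ supp x, fn g ∈ C ∧ g ∈ supp y0 := by
    intro g hg
    have hg' : x (fn g) = true := hg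
    by_cases h : fn g ∈ C
    · refine ⟨h, ?_⟩
      rw [hxC _ h] at hg'
      exact hg'
    · simp only [hx] at hg'
      rw [if_pos ⟨⟨g, rfl⟩, h⟩] at hg'
      exact absurd hg' (by simp)
  refine ⟨n, x, C, ⟨fun j => by rw [hxi]; exact hn.1 j, fun g hg h hh e =>
    hn.2.1 g (hxs g hg).2 h (hxs h hh).2 e, fun j A h => hn.2.2 j A (by rw [← hxp]; exact h)⟩,
    by simp [hC], ?_, fun g hg => (hxs g hg).1, ?_⟩
  · intro t ht
    rw [hxC t (by simp [hC, ht]), hy0u t (by simp [ht]), hur t ht]
  · intro y hy hyx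
    refine hC2 y (SS_sub hy) fun t ht => ?_
    have htC : t ∈ C := by simp [hC, ht]
    rw [hyx t htC, hxC t htC]

theorem lemB {U : Set P} (hU : OpX U) {r : P} (hr : r ∈ closure U) (hrK : r ∈ closure SS)
    (hrS : r ∉ SS) (hrc : (supp r).Countable) :
    ∃ (n : ℕ → ℕ) (x : ℕ → P) (C : ℕ → Finset T), StrictMono n ∧ (∀ k, x k ∈ S (n k)) ∧
      (∀ k, ∀ g ∈ supp (x k), fn g ∈ C k) ∧
      (∀ k, ∀ y ∈ SS, (∀ t ∈ C k, y t = x k t) → y ∈ U) ∧
      (∀ g, ∀ᶠ k in atTop, x k (fn g) = r (fn g)) := by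
  choose N X C h1 h2 h3 h4 h5 using lemA hU hr
  obtain ⟨e, he⟩ := countable_iff_exists_subset_range.1 hrc
  set D : ℕ → Finset T := fun k =>
    Nat.rec ∅ (fun k Dk => C Dk ∪ (Finset.range (N Dk + 1)).image idx ∪ {fn (e k)}) k with hD
  have hDs : ∀ k, D (k + 1) = C (D k) ∪ (Finset.range (N (D k) + 1)).image idx ∪ {fn (e k)} :=
    fun k => rfl
  have hmono1 : ∀ k, D k ⊆ D (k + 1) := by
    intro k
    rw [hDs]
    intro t ht
    simp [h2 (D k) ht]
  have hmono : Monotone D := monotone_nat_of_le_succ hmono1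
  have hCD : ∀ k, C (D k) ⊆ D (k + 1) := by
    intro k
    rw [hDs]
    intro t ht
    simp [ht]
  refine ⟨fun k => N (D k), fun k => X (D k), fun k => C (D k), ?_, fun k => h1 _, fun k => h4 _,
    fun k => h5 _, ?_⟩
  · refine strictMono_nat_of_lt_succ fun k => ?_
    by_contra hlt
    rw [not_lt] at hlt
    have h60 : ∀ j ≤ N (D k), idx j ∈ D (k + 1) := by
      intro j hj
      rw [hDs k]
      simp only [Finset.mem_union, Finset.mem_image, Finset.mem_range]
      exact Or.inl (Or.inr ⟨j, by omega, rfl⟩)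
    have h6 := h60 _ hlt
    have h7 := h3 (D (k + 1)) _ h6
    rw [idx_false hrK hrS] at h7
    have h8 := ((h1 (D (k + 1))).1 (N (D (k + 1)))).2 rfl
    rw [h7] at h8
    exact absurd h8 (by simp)
  · intro g
    by_cases hg : ∃ k, fn g ∈ D k
    · obtain ⟨k0, hk0⟩ := hg
      filter_upwards [eventually_ge_atTop k0] with k hk
      exact h3 (D k) _ (hmono hk hk0)
    · push Not at hg
      have hr0 : r (fn g) = false := by
        by_contra h
        rw [Bool.not_eq_false] at h
        obtain ⟨k, hk⟩ := he (show g ∈ supp r from h)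
        refine hg (k + 1) ?_
        rw [hDs, hk]
        simp
      refine Eventually.of_forall fun k => ?_
      rw [hr0]
      by_contra h
      rw [Bool.not_eq_false] at h
      exact hg (k + 1) (hCD k (h4 (D k) g h))

/-- adding functions to the support -/
noncomputable def addH (r : P) (H : Set (ℕ → ℕ)) : P :=
  fun t => if ∃ h ∈ H, t = fn h then true else r t

theorem addH_fn_mem {r : P} {H : Set (ℕ → ℕ)} {g : ℕ → ℕ} (h : g ∈ H) : addH r H (fn g) = true := by
  unfold addH
  rw [if_pos ⟨g, h, rfl⟩]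

theorem addH_fn_not {r : P} {H : Set (ℕ → ℕ)} {g : ℕ → ℕ} (h : g ∉ H) :
    addH r H (fn g) = r (fn g) := by
  unfold addH
  rw [if_neg]
  rintro ⟨h', h1, h2⟩
  rw [T.fn.injEq] at h2
  exact h (h2 ▸ h1)

theorem addH_idx (r : P) (H : Set (ℕ → ℕ)) (j : ℕ) : addH r H (idx j) = r (idx j) := by
  simp [addH]

theorem addH_pr (r : P) (H : Set (ℕ → ℕ)) (j : ℕ) (A : Set ℕ) :
    addH r H (pr j A) = r (pr j A) := by
  simp [addH]

theorem lemE {U : Set P} {r : P} (hrK : r ∈ closure SS) (hrS : r ∉ SS)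
    {n : ℕ → ℕ} {x : ℕ → P} {C : ℕ → Finset T} (hn : StrictMono n) (hx : ∀ k, x k ∈ S (n k))
    (hsupp : ∀ k, ∀ g ∈ supp (x k), fn g ∈ C k)
    (hU : ∀ k, ∀ y ∈ SS, (∀ t ∈ C k, y t = x k t) → y ∈ U)
    (hlim : ∀ g, ∀ᶠ k in atTop, x k (fn g) = r (fn g)) {H : Set (ℕ → ℕ)}
    (hH1 : ∀ h ∈ H, ∀ k, fn h ∉ C k)
    (hH2 : ∀ h ∈ H, ∀ k, ∀ g, fn g ∈ C k → g (n k) ≠ h (n k))
    (hH3 : ∀ h ∈ H, ∀ h' ∈ H, h ≠ h' → ∃ N, ∀ n ≥ N, h n ≠ h' n) :
    addH r H ∈ closure U := by
  rw [mem_closure_cyl]
  intro D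
  set E : Set (ℕ → ℕ) := {h | h ∈ H ∧ fn h ∈ D} with hE
  have hEfin : E.Finite := by
    have : InjOn fn E := fun a _ b _ hab => by simpa using hab
    refine Finite.of_finite_image (Finite.subset D.finite_toSet ?_) this
    rintro _ ⟨h, hh, rfl⟩
    exact hh.2
  have ev1 : ∀ᶠ k in atTop, ∀ t ∈ D, ∀ j, (t = idx j ∨ ∃ A, t = pr j A) → n k ≠ j := by
    rw [eventually_all_finset]
    intro t _
    rcases t with j | g | ⟨j, A⟩
    · filter_upwards [eventually_gt_atTop j] with k hk i hi
      have hji : j = i := by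
        rcases hi with hi | ⟨A, hi⟩
        · simpa using hi
        · exact absurd hi (by simp)
      have := hn.id_le k
      simp only [id] at this
      omega
    · refine Eventually.of_forall fun k i hi => ?_
      rcases hi with hi | ⟨A, hi⟩
      · exact absurd hi (by simp)
      · exact absurd hi (by simp)
    · filter_upwards [eventually_gt_atTop j] with k hk i hi
      have hji : j = i := by
        rcases hi with hi | ⟨A', hi⟩
        · exact absurd hi (by simp)
        · simp only [T.pr.injEq] at hi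
          exact hi.1
      have := hn.id_le k
      simp only [id] at this
      omega
  have ev2 : ∀ᶠ k in atTop, ∀ t ∈ D, ∀ g, t = fn g → x k (fn g) = r (fn g) := by
    rw [eventually_all_finset]
    intro t _
    rcases t with j | g | ⟨j, A⟩
    · exact Eventually.of_forall fun k g hg => absurd hg (by simp)
    · filter_upwards [hlim g] with k hk g' hg'
      rw [T.fn.injEq] at hg'
      rw [← hg']
      exact hk
    · exact Eventually.of_forall fun k g hg => absurd hg (by simp)
  have ev3 : ∀ᶠ k in atTop, ∀ h ∈ E, ∀ h' ∈ E, h ≠ h' → h (n k) ≠ h' (n k) := by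
    rw [eventually_all_finite hEfin]
    intro h hh
    rw [eventually_all_finite hEfin]
    intro h' hh'
    by_cases hne : h = h'
    · exact Eventually.of_forall fun k hk => absurd hne hk
    · obtain ⟨N, hN⟩ := hH3 h hh.1 h' hh'.1 hne
      filter_upwards [eventually_ge_atTop N] with k hk _
      have := hn.id_le k
      simp only [id] at this
      exact hN _ (by omega)
  obtain ⟨k, h1, h2, h3⟩ := (ev1.and (ev2.and ev3)).exists
  have hEC : ∀ g, g ∈ E → g ∉ supp (x k) := fun g hg hg' => hH1 g hg.1 k (hsupp k g hg')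
  have hcross : ∀ g ∈ E, ∀ g' ∈ supp (x k), g' (n k) ≠ g (n k) := fun g hg g' hg' =>
    hH2 g hg.1 k g' (hsupp k g' hg')
  have hsy : ∀ g, g ∈ supp (addH (x k) E) → g ∈ E ∨ g ∈ supp (x k) := by
    intro g hg
    by_cases hgE : g ∈ E
    · exact Or.inl hgE
    · right
      have : addH (x k) E (fn g) = true := hg
      rw [addH_fn_not hgE] at this
      exact this
  have hyS : addH (x k) E ∈ S (n k) := by
    refine ⟨fun j => ?_, fun g hg h hh e => ?_, fun j A hj => ?_⟩
    · rw [addH_idx]
      exact (hx k).1 j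
    · rcases hsy g hg with h4 | h4 <;> rcases hsy h hh with h5 | h5
      · by_contra hne
        exact h3 g h4 h h5 hne e
      · exact absurd e.symm (hcross g h4 h h5)
      · exact absurd e (hcross h h5 g h4)
      · exact (hx k).2.1 g h4 h h5 e
    · rw [addH_pr] at hj
      exact (hx k).2.2 j A hj
  refine ⟨addH (x k) E, ?_, ?_⟩
  · refine hU k _ (S_sub _ hyS) fun t ht => ?_
    unfold addH
    rw [if_neg]
    rintro ⟨h, hh, rfl⟩
    exact hH1 h hh.1 k ht
  · intro t ht
    rcases t with j | g | ⟨j, A⟩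
    · rw [addH_idx, addH_idx, idx_false hrK hrS]
      have h6 := h1 _ ht j (Or.inl rfl)
      by_contra h7
      rw [Bool.not_eq_false] at h7
      exact h6 ((((hx k).1 j).1 h7).symm)
    · by_cases hg : g ∈ H
      · rw [addH_fn_mem hg, addH_fn_mem (show g ∈ E from ⟨hg, ht⟩)]
      · rw [addH_fn_not hg, addH_fn_not (fun h => hg h.1)]
        exact h2 _ ht g rfl
    · rw [addH_pr, addH_pr, pr_false hrK hrS]
      have h6 := h1 _ ht j (Or.inr ⟨A, rfl⟩)
      by_contra h7
      rw [Bool.not_eq_false] at h7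
      exact h6 (((hx k).2.2 j A h7).symm)

/-- coding of initial segments -/
def code (x : ℕ → Bool) (n : ℕ) : ℕ := Encodable.encode ((List.range n).map x)

theorem code_ne {x y : ℕ → Bool} (h : x ≠ y) : ∃ N, ∀ n ≥ N, code x n ≠ code y n := by
  obtain ⟨i, hi⟩ := Function.ne_iff.1 h
  refine ⟨i + 1, fun n hn e => hi ?_⟩
  have e' := Encodable.encode_injective e
  rw [List.map_inj_left] at e'
  exact e' i (List.mem_range.2 (by omega))

/-- fast growing eventually different functions -/
def hh (m : ℕ → ℕ) (x : ℕ → Bool) : ℕ → ℕ := fun n => Nat.pair (m n) (code x n)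

theorem hh_ne (m : ℕ → ℕ) {x y : ℕ → Bool} (h : x ≠ y) : ∃ N, ∀ n ≥ N, hh m x n ≠ hh m y n := by
  obtain ⟨N, hN⟩ := code_ne h
  refine ⟨N, fun n hn e => hN n hn ?_⟩
  have := (Nat.pair_eq_pair.1 e).2
  exact this

theorem hh_inj (m : ℕ → ℕ) : Function.Injective (hh m) := by
  intro x y e
  by_contra h
  obtain ⟨N, hN⟩ := hh_ne m h
  exact hN N le_rfl (congrFun e N)

theorem not_countable_bool : ¬ (univ : Set (ℕ → Bool)).Countable := by
  intro h
  have : Countable (ℕ → Bool) := countable_univ_iff.1 h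
  have h2 : Cardinal.mk (ℕ → Bool) ≤ Cardinal.aleph0 := Cardinal.mk_le_aleph0_iff.2 this
  rw [Cardinal.mk_arrow] at h2
  simp at h2
  exact absurd h2 (not_le.2 (Cardinal.cantor _))

theorem range_hh_not_countable (m : ℕ → ℕ) : ¬ (range (hh m)).Countable := by
  intro h
  rw [← image_univ] at h
  exact not_countable_bool (countable_of_injective_of_countable_image (hh_inj m).injOn h)

/-- value of a coordinate -/
def val (t : T) (n : ℕ) : ℕ := match t with
  | idx _ => 0
  | fn g => g n
  | pr _ _ => 0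

theorem merge {U W : Set P} (hU : OpX U) (hW : OpX W) {r : P} (hrK : r ∈ closure SS)
    (hrX : r ∉ XX) (hrU : r ∈ closure U) (hrW : r ∈ closure W) :
    ∃ r' ∈ XX, r' ∈ closure U ∧ r' ∈ closure W := by
  have hrS : r ∉ SS := fun h => hrX (SS_sub h)
  have hrc : (supp r).Countable := by
    by_contra h
    exact hrX ⟨hrK, Or.inr h⟩
  obtain ⟨n, x, C, a1, a2, a3, a4, a5⟩ := lemB hU hrU hrK hrS hrc
  obtain ⟨n', x', C', b1, b2, b3, b4, b5⟩ := lemB hW hrW hrK hrS hrc
  set m : ℕ → ℕ := fun i => (∑ k ∈ Finset.range (i + 1), ∑ t ∈ C k, val t i)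
    + (∑ k ∈ Finset.range (i + 1), ∑ t ∈ C' k, val t i) + 1 with hm
  set V : Set (ℕ → ℕ) := {g | (∃ k, fn g ∈ C k) ∨ ∃ k, fn g ∈ C' k} with hV
  have hVc : V.Countable := by
    have hinj : Function.Injective fn := fun a b hab => by simpa using hab
    have h1 : ∀ F : Finset T, {g | fn g ∈ F}.Countable := fun F =>
      (Finite.preimage hinj.injOn F.finite_toSet).countable
    have : V = (⋃ k, {g | fn g ∈ C k}) ∪ ⋃ k, {g | fn g ∈ C' k} := by
      ext g; simp [hV]
    rw [this]
    exact (countable_iUnion fun k => h1 _).union (countable_iUnion fun k => h1 _)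
  set H : Set (ℕ → ℕ) := range (hh m) \ V with hH
  have hHc : ¬ H.Countable := by
    intro h
    refine range_hh_not_countable m ((h.union hVc).mono ?_)
    rw [hH, sdiff_union_self]
    exact subset_union_left
  have hle : ∀ (C : ℕ → Finset T) (k i : ℕ) (g : ℕ → ℕ), fn g ∈ C k → k ≤ i →
      g i ≤ ∑ k ∈ Finset.range (i + 1), ∑ t ∈ C k, val t i := by
    intro C k i g hg hki
    calc g i = val (fn g) i := rfl
      _ ≤ ∑ t ∈ C k, val t i := Finset.single_le_sum (f := fun t => val t i)
          (fun _ _ => Nat.zero_le _) hg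
      _ ≤ _ := Finset.single_le_sum (f := fun k => ∑ t ∈ C k, val t i)
          (fun _ _ => Nat.zero_le _) (Finset.mem_range.2 (by omega))
  have hH3 : ∀ h ∈ H, ∀ h' ∈ H, h ≠ h' → ∃ N, ∀ n ≥ N, h n ≠ h' n := by
    rintro _ ⟨⟨y, rfl⟩, _⟩ _ ⟨⟨y', rfl⟩, _⟩ hne
    exact hh_ne m (fun e => hne (by rw [e]))
  have hge : ∀ h ∈ H, ∀ i, m i ≤ h i := by
    rintro _ ⟨⟨y, rfl⟩, _⟩ i
    exact Nat.left_le_pair _ _
  have c1 := lemE hrK hrS a1 a2 a3 a4 a5 (H := H)
    (fun h hh' k hk => hh'.2 (Or.inl ⟨k, hk⟩))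
    (fun h hh' k g hg => by
      have h1 := hle C k (n k) g hg (a1.id_le k)
      have h2 := hge h hh' (n k)
      simp only [hm] at h2
      omega) hH3
  have c2 := lemE hrK hrS b1 b2 b3 b4 b5 (H := H)
    (fun h hh' k hk => hh'.2 (Or.inr ⟨k, hk⟩))
    (fun h hh' k g hg => by
      have h1 := hle C' k (n' k) g hg (b1.id_le k)
      have h2 := hge h hh' (n' k)
      simp only [hm] at h2
      omega) hH3
  refine ⟨addH r H, ⟨?_, Or.inr ?_⟩, c1, c2⟩
  · have hUK : U ⊆ closure SS := fun u hu => (hU u hu).1.1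
    exact closure_minimal hUK isClosed_closure c1
  · intro h
    exact hHc (h.mono fun g hg => addH_fn_mem hg)

/-! ### Properties of the space -/

/-- The space `X` -/
abbrev X : Type := ↥XX

/-- The compact space `K` -/
abbrev K : Type := ↥(closure SS)

instance : CompactSpace K := isCompact_iff_compactSpace.1 isClosed_closure.isCompact

/-- the inclusion -/
def inc : X → K := fun x => ⟨x.1, x.2.1⟩

theorem isDenseInducing_inc : IsDenseInducing inc := by
  refine ⟨⟨?_⟩, ?_⟩
  · have h1 : (Subtype.val : X → P) = Subtype.val ∘ inc := rfl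
    rw [instTopologicalSpaceSubtype, h1, ← induced_compose]
    rfl
  · intro k
    rw [closure_subtype]
    refine closure_mono ?_ k.2
    intro y hy
    exact ⟨inc ⟨y, SS_sub hy⟩, ⟨_, rfl⟩, rfl⟩

theorem opX_image {U : Set X} (hU : IsOpen U) : OpX (Subtype.val '' U) := by
  obtain ⟨O, hO, rfl⟩ := isOpen_induced_iff.1 hU
  rintro _ ⟨x, hx, rfl⟩
  refine ⟨x.2, ?_⟩
  obtain ⟨C, hC⟩ := exists_cyl hO hx
  exact ⟨C, fun y hy h => ⟨⟨y, hy⟩, hC y h, rfl⟩⟩

/-- continuous maps of `X` into compact Hausdorff spaces extend to `K` -/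
theorem extend {Y : Type} [TopologicalSpace Y] [CompactSpace Y] [T2Space Y] {f : X → Y}
    (hf : Continuous f) : ∃ F : K → Y, Continuous F ∧ ∀ x, F (inc x) = f x := by
  have di := isDenseInducing_inc
  refine ⟨di.extend f, di.continuous_extend fun b => ?_, fun x => di.extend_eq hf x⟩
  have : (comap inc (𝓝 b)).NeBot := di.comap_nhds_neBot b
  by_cases hb : b.1 ∈ XX
  · refine ⟨f ⟨b.1, hb⟩, ?_⟩
    have e : 𝓝 b = 𝓝 (inc ⟨b.1, hb⟩) := rfl
    rw [e, ← di.isInducing.nhds_eq_comap]
    exact hf.continuousAt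
  · obtain ⟨c, hc⟩ := exists_clusterPt_of_compactSpace (map f (comap inc (𝓝 b)))
    refine ⟨c, le_nhds_of_unique_clusterPt fun c' hc' => ?_⟩
    by_contra hne
    obtain ⟨O, hcO, hO, O', hcO', hO', hdis⟩ := exists_open_nhds_disjoint_closure hne
    have key : ∀ (Q : Set Y) (q : Y), IsOpen Q → q ∈ Q → ClusterPt q (map f (comap inc (𝓝 b))) →
        b.1 ∈ closure (Subtype.val '' (f ⁻¹' Q)) := by
      intro Q q hQ hq hcl
      rw [mem_closure_iff]
      intro N hN hbN
      have h1 : inc ⁻¹' (Subtype.val ⁻¹' N) ∈ comap inc (𝓝 b) :=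
        preimage_mem_comap ((hN.preimage continuous_subtype_val).mem_nhds hbN)
      have h2 := image_mem_map (m := f) h1
      obtain ⟨y, hyQ, x, hxN, rfl⟩ := (clusterPt_iff_nonempty.1 hcl) (hQ.mem_nhds hq) h2
      exact ⟨x.1, hxN, x, hyQ, rfl⟩
    obtain ⟨r', hr', h1, h2⟩ := merge (opX_image (hO.preimage hf)) (opX_image (hO'.preimage hf))
      b.2 hb (key O _ hO hcO hc') (key O' _ hO' hcO' hc)
    have h3 : f ⟨r', hr'⟩ ∈ closure O := by
      have : (⟨r', hr'⟩ : X) ∈ closure (f ⁻¹' O) := by rw [closure_subtype]; exact h1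
      exact (hf.closure_preimage_subset O) this
    have h4 : f ⟨r', hr'⟩ ∈ closure O' := by
      have : (⟨r', hr'⟩ : X) ∈ closure (f ⁻¹' O') := by rw [closure_subtype]; exact h2
      exact (hf.closure_preimage_subset O') this
    exact disjoint_left.1 hdis h3 h4

/-- the point of `S n` without further coordinates -/
def base (n : ℕ) : P := fun t => match t with
  | idx j => decide (j = n)
  | fn _ => false
  | pr _ _ => false

theorem base_mem (n : ℕ) : base n ∈ S n := by
  refine ⟨fun j => by simp [base], fun g hg => ?_, fun j A h => ?_⟩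
  · exact absurd (show base n (fn g) = true from hg) (by simp [base])
  · exact absurd h (by simp [base])

theorem notCompact : ¬ CompactSpace X := by
  intro h
  have hc : IsCompact XX := isCompact_iff_compactSpace.2 h
  have h0 : (fun _ => false : P) ∈ closure SS := by
    rw [mem_closure_cyl]
    intro C
    obtain ⟨n, hn⟩ : ∃ n, idx n ∉ C := by
      have : InjOn idx univ := fun a _ b _ hab => by simpa using hab
      by_contra hcon
      push Not at hcon
      exact infinite_univ (Finite.of_finite_image (Finite.subset C.finite_toSet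
        (by rintro _ ⟨n, _, rfl⟩; exact hcon n)) this)
    refine ⟨base n, S_sub n (base_mem n), fun t ht => ?_⟩
    rcases t with j | g | ⟨j, A⟩
    · simp only [base, decide_eq_false_iff_not]
      rintro rfl
      exact hn ht
    · rfl
    · rfl
  have h1 : (fun _ => false : P) ∈ XX := by
    have := closure_mono SS_sub h0
    rwa [hc.isClosed.closure_eq] at this
  rcases h1.2 with h2 | h2
  · obtain ⟨n, hn⟩ := mem_iUnion.1 h2
    have := (hn.1 n).2 rfl
    simp at this
  · apply h2
    have : supp (fun _ => false : P) = ∅ := by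
      ext g; simp [supp]
    rw [this]
    exact countable_empty

theorem tendsto_coord {ι : Type*} {l : Filter ι} {x : ι → P} {z : P} (h : Tendsto x l (𝓝 z))
    (t : T) : ∀ᶠ i in l, x i t = z t := by
  have h1 := (tendsto_pi_nhds.1 h) t
  rw [nhds_discrete, tendsto_pure] at h1
  exact h1

theorem shd_X : SHD X := by
  intro U hU hne
  have hp : ∀ n, ∃ (k : ℕ) (y : P) (C : Finset T), y ∈ S k ∧
      ∀ z ∈ XX, (∀ t ∈ C, z t = y t) → z ∈ Subtype.val '' U n := by
    intro n
    obtain ⟨u, hu⟩ := hne n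
    have hop := opX_image (hU n)
    obtain ⟨huX, C1, hC1⟩ := hop u.1 ⟨u, hu, rfl⟩
    obtain ⟨y, hy, hyu⟩ := mem_closure_cyl.1 huX.1 C1
    obtain ⟨k, hk⟩ := mem_iUnion.1 hy
    obtain ⟨_, C2, hC2⟩ := hop y (hC1 y (SS_sub hy) hyu)
    exact ⟨k, y, C2, hk, hC2⟩
  choose k y C h1 h2 using hp
  -- the points
  set x : ℕ → P := fun n t => if (∃ A, t = pr (k n) A) ∧ t ∉ C n then
    decide (∃ A, t = pr (k n) A ∧ n ∈ A) else y n t with hx
  have hxi : ∀ n j, x n (idx j) = y n (idx j) := fun n j => by simp [hx]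
  have hxf : ∀ n g, x n (fn g) = y n (fn g) := fun n g => by simp [hx]
  have hxC : ∀ n, ∀ t ∈ C n, x n t = y n t := fun n t ht => by
    simp only [hx]; rw [if_neg (fun h => h.2 ht)]
  have hxp : ∀ n A, pr (k n) A ∉ C n → (x n (pr (k n) A) = true ↔ n ∈ A) := by
    intro n A hA
    simp only [hx]
    rw [if_pos ⟨⟨A, rfl⟩, hA⟩, decide_eq_true_iff]
    constructor
    · rintro ⟨A', h3, h4⟩
      simp only [T.pr.injEq, true_and] at h3
      rw [h3]; exact h4
    · intro h3
      exact ⟨A, rfl, h3⟩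
  have hsupp : ∀ n, supp (x n) = supp (y n) := by
    intro n
    ext g
    show x n (fn g) = true ↔ y n (fn g) = true
    rw [hxf]
  have hxS : ∀ n, x n ∈ S (k n) := by
    intro n
    refine ⟨fun j => by rw [hxi]; exact (h1 n).1 j, ?_, fun j A hj => ?_⟩
    · rw [hsupp]
      exact (h1 n).2.1
    · by_contra hne'
      have : x n (pr j A) = y n (pr j A) := by
        simp only [hx]
        rw [if_neg]
        rintro ⟨⟨A', h3⟩, _⟩
        simp only [T.pr.injEq] at h3
        exact hne' h3.1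
      rw [this] at hj
      exact hne' ((h1 n).2.2 j A hj)
  have hxU : ∀ n, ∃ u ∈ U n, u.1 = x n := by
    intro n
    obtain ⟨u, hu, e⟩ := h2 n (x n) (SS_sub (S_sub _ (hxS n))) (hxC n)
    exact ⟨u, hu, e⟩
  choose u hu1 hu2 using hxU
  refine ⟨u, hu1, fun φ hφ => ?_⟩
  rintro ⟨z, hz⟩
  have hz' : Tendsto (fun i => x (φ i)) atTop (𝓝 z.1) := by
    have h3 := (continuous_subtype_val.tendsto z).comp hz
    refine h3.congr fun i => ?_
    exact hu2 (φ i)
  rcases z.2.2 with hzS | hzc
  · obtain ⟨j, hj⟩ := mem_iUnion.1 hzS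
    have hk : ∀ᶠ i in atTop, k (φ i) = j := by
      filter_upwards [tendsto_coord hz' (idx j)] with i hi
      have : x (φ i) (idx j) = true := by rw [hi]; exact (hj.1 j).2 rfl
      exact (((hxS (φ i)).1 j).1 this).symm
    -- a splitting set
    set B : (ℕ → Bool) → Set ℕ := fun w => range fun i => φ (2 * i + (w i).toNat) with hB
    have hBmem : ∀ w i, φ (2 * i + (w i).toNat) ∈ B w := fun w i => ⟨i, rfl⟩
    have hBnot : ∀ w i, φ (2 * i + (!w i).toNat) ∉ B w := by
      rintro w i ⟨i', hi'⟩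
      have h3 := hφ.injective hi'
      have h4 : (w i').toNat ≤ 1 := Bool.toNat_le _
      have h5 : (!w i).toNat ≤ 1 := Bool.toNat_le _
      have h6 : i' = i := by omega
      subst h6
      rcases hw : w i' with _ | _ <;> rw [hw] at h3 <;> simp at h3
    have hBinj : Function.Injective B := by
      intro w w' e
      by_contra hne'
      obtain ⟨i, hi⟩ := Function.ne_iff.1 hne'
      have h3 : (!w i) = w' i := by
        rcases hw : w i with _ | _ <;> rcases hw' : w' i with _ | _ <;> rw [hw, hw'] at hi <;>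
          simp_all
      apply hBnot w i
      rw [h3, e]
      exact hBmem w' i
    have hcount : ¬ (range B).Countable := by
      intro h
      rw [← image_univ] at h
      exact not_countable_bool (countable_of_injective_of_countable_image hBinj.injOn h)
    have hVc : {A : Set ℕ | ∃ n, pr j A ∈ C n}.Countable := by
      have hinj : Function.Injective (pr j) := fun a b hab => by simpa using hab
      have h3 : {A : Set ℕ | ∃ n, pr j A ∈ C n} = ⋃ n, pr j ⁻¹' (C n : Set T) := by
        ext A; simp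
      rw [h3]
      exact countable_iUnion fun n => ((C n).finite_toSet.preimage hinj.injOn).countable
    obtain ⟨_, ⟨w, rfl⟩, hw⟩ : ∃ A ∈ range B, A ∉ {A : Set ℕ | ∃ n, pr j A ∈ C n} := by
      by_contra hcon
      push Not at hcon
      exact hcount (hVc.mono hcon)
    simp only [mem_ofPred_eq, not_exists] at hw
    have ev := (tendsto_coord hz' (pr j (B w))).and hk
    rw [eventually_atTop] at ev
    obtain ⟨N, hN⟩ := ev
    have hval : ∀ i ≥ N, (z.1 (pr j (B w)) = true ↔ φ i ∈ B w) := by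
      intro i hi
      obtain ⟨h3, h4⟩ := hN i hi
      rw [← h3]
      have h5 := hxp (φ i) (B w) (by rw [h4]; exact hw _)
      rw [h4] at h5
      exact h5
    have e1 := hval (2 * N + (w N).toNat) (by omega)
    have e2 := hval (2 * N + (!w N).toNat) (by omega)
    exact hBnot w N (e2.1 (e1.2 (hBmem w N)))
  · apply hzc
    have : supp z.1 ⊆ ⋃ n, supp (x n) := by
      intro g hg
      obtain ⟨i, hi⟩ := (tendsto_coord hz' (fn g)).exists
      refine mem_iUnion.2 ⟨φ i, ?_⟩
      show x (φ i) (fn g) = true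
      rw [hi]
      exact hg
    exact (countable_iUnion fun n => supp_countable (hxS n)).mono this

theorem exists_subseq {y : ℕ → P} (hy : ∀ n, y n ∈ S n) :
    ∃ φ : ℕ → ℕ, StrictMono φ ∧ ∃ z ∈ closure SS, Tendsto (y ∘ φ) atTop (𝓝 z) := by
  set V : Set (ℕ → ℕ) := ⋃ n, supp (y n) with hV
  have hVc : V.Countable := countable_iUnion fun n => supp_countable (hy n)
  have : Countable V := hVc.to_subtype
  obtain ⟨a, φ, hφ, ha⟩ := CompactSpace.tendsto_subseq (fun n (g : V) => y n (fn g.1))
  set z : P := fun t => match t with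
    | idx _ => false
    | fn g => if hg : g ∈ V then a ⟨g, hg⟩ else false
    | pr _ _ => false with hz
  have ht : Tendsto (y ∘ φ) atTop (𝓝 z) := by
    rw [tendsto_pi_nhds]
    intro t
    rw [nhds_discrete, tendsto_pure]
    rcases t with j | g | ⟨j, A⟩
    · filter_upwards [eventually_gt_atTop j] with i hi
      have h1 := hφ.id_le i
      simp only [id] at h1
      show y (φ i) (idx j) = false
      by_contra h
      rw [Bool.not_eq_false] at h
      have := ((hy (φ i)).1 j).1 h
      omega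
    · by_cases hg : g ∈ V
      · have h1 := (tendsto_pi_nhds.1 ha) ⟨g, hg⟩
        rw [nhds_discrete, tendsto_pure] at h1
        filter_upwards [h1] with i hi
        simp only [hz]
        rw [dif_pos hg]
        exact hi
      · refine Eventually.of_forall fun i => ?_
        simp only [hz]
        rw [dif_neg hg]
        by_contra h
        have h' : y (φ i) (fn g) = true := by
          rcases hb : y (φ i) (fn g) with _ | _
          · exact absurd hb h
          · rfl
        exact hg (mem_iUnion.2 ⟨φ i, h'⟩)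
    · filter_upwards [eventually_gt_atTop j] with i hi
      have h1 := hφ.id_le i
      simp only [id] at h1
      show y (φ i) (pr j A) = false
      by_contra h
      rw [Bool.not_eq_false] at h
      have := (hy (φ i)).2.2 j A h
      omega
  exact ⟨φ, hφ, z, mem_closure_of_tendsto ht (Eventually.of_forall fun i => S_sub _ (hy _)), ht⟩

theorem not_shd : ¬ SHD (StoneCech X) := by
  intro h
  have hinc : Continuous inc := isDenseInducing_inc.continuous
  set Φ : StoneCech X → K := stoneCechExtend hinc with hΦd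
  have hΦ : Continuous Φ := continuous_stoneCechExtend hinc
  have hΦu : ∀ x, Φ (stoneCechUnit x) = inc x := fun x => stoneCechExtend_stoneCechUnit hinc x
  obtain ⟨F, hF, hFu⟩ := extend (continuous_stoneCechUnit (α := X))
  have hFΦ : ∀ p, F (Φ p) = p := by
    have : F ∘ Φ = id := stoneCech_hom_ext (hF.comp hΦ) continuous_id (funext fun x => by
      show F (Φ (stoneCechUnit x)) = stoneCechUnit x
      rw [hΦu, hFu])
    exact fun p => congrFun this p
  obtain ⟨y, hy, hno⟩ := h (fun n => Φ ⁻¹' {k | k.1 (idx n) = true}) (fun n => by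
      refine IsOpen.preimage hΦ ?_
      have h1 : Continuous fun k : K => k.1 (idx n) :=
        (continuous_apply (idx n)).comp continuous_subtype_val
      exact (isOpen_discrete {true}).preimage h1) (fun n => by
      refine ⟨stoneCechUnit ⟨base n, SS_sub (S_sub n (base_mem n))⟩, ?_⟩
      show (Φ (stoneCechUnit _)).1 (idx n) = true
      rw [hΦu]
      exact ((base_mem n).1 n).2 rfl)
  obtain ⟨φ, hφ, z, hz, ht⟩ := exists_subseq (y := fun n => (Φ (y n)).1)
    (fun n => mem_S_of_idx (Φ (y n)).2 (hy n))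
  refine hno φ hφ ⟨F ⟨z, hz⟩, ?_⟩
  have h1 : Tendsto (fun i => Φ (y (φ i))) atTop (𝓝 ⟨z, hz⟩) := tendsto_subtype_rng.2 ht
  exact ((hF.tendsto _).comp h1).congr fun i => hFΦ _

/-- **MP_b7f2db_gt, Q1 (full negative answer, in ZFC).** There is a Tychonoff, non-compact,
selectively highly divergent space whose Stone-Čech compactification is not selectively highly
divergent. -/
theorem result : ∃ (X : Type) (_ : TopologicalSpace X),
    T35Space X ∧ ¬ CompactSpace X ∧ SHD X ∧ ¬ SHD (StoneCech X) :=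
  ⟨X, inferInstance, inferInstance, notCompact, shd_X, not_shd⟩

end Pool.Agent.Results.MP_b7f2db_gt.BetaNotSHD
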